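import Pool.Agent.K3h75.FF.Stm4
import Pool.Agent.Y769.H.Glw

/-!
# Brick XG (job 98, for helper75): gluing of charts over different affine pieces of a curve
-/

set_option autoImplicit false

namespace Pool.Agent.K3h66.FF

open Pool.Agent.Y223.G Pool.Agent.Y971.G Pool.Agent.Y769.H Pool.Agent.K3h75.FF

section

variable {k k' K : Type} [CommRing k] [CommRing k'] [Field K] [Algebra k K] [Algebra k' K]

/-- The localization of a subalgebra, as an algebra over another ring. -/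
def locX (R : Subalgebra k (LP K)) (x : LP K) (hx : x ∈ R)
    (hk : ∀ c : k', ∃ n : ℕ, x ^ n * algebraMap k' (LP K) c ∈ R) : Subalgebra k' (LP K) where
  carrier := {f | ∃ n : ℕ, x ^ n * f ∈ R}
  mul_mem' := by
    rintro f g ⟨n, hn⟩ ⟨m, hm⟩
    refine ⟨n + m, ?_⟩
    have : x ^ (n + m) * (f * g) = (x ^ n * f) * (x ^ m * g) := by ring
    rw [this]
    exact R.mul_mem hn hm
  add_mem' := by
    rintro f g ⟨n, hn⟩ ⟨m, hm⟩
    refine ⟨n + m, ?_⟩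
    have : x ^ (n + m) * (f + g) = x ^ m * (x ^ n * f) + x ^ n * (x ^ m * g) := by ring
    rw [this]
    exact R.add_mem (R.mul_mem (R.pow_mem hx _) hn) (R.mul_mem (R.pow_mem hx _) hm)
  algebraMap_mem' := hk

/-- one factor, different bases and base rings, a general target -/
lemma rr_locX {B B' : Type} [CommRing B] [CommRing B'] [Algebra B K] [Algebra B' K]
    {C : Subalgebra B K} {C' : Subalgebra B' K} {ν : K} {R : Subalgebra k (LP K)}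
    (hR : ∀ c ∈ C, hm 0 c ∈ R) (hs : hm (-1) 1 ∈ R) (hν : hm 0 ν ∈ R) (hν1 : hm 1 ν ∈ R)
    (hk : ∀ c : k', ∃ n : ℕ, hm 0 ν ^ n * algebraMap k' (LP K) c ∈ R)
    (hB : ∀ r : B', ∃ n : ℕ, ν ^ n * algebraMap B' K r ∈ C)
    (hle : ∀ c ∈ C', ∃ n : ℕ, ν ^ n * c ∈ C) :
    RR k' 1 1 ⊤ 0 C' ≤ locX R (hm 0 ν) hν hk := by
  refine Algebra.adjoin_le ?_
  rintro f ((hf | ⟨e, he, rfl⟩) | ⟨a, c, hc, ha, rfl⟩)
  · rw [hf]
    exact ⟨0, by rw [pow_zero, one_mul]; exact hs⟩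
  · obtain ⟨n, hn⟩ := hB e
    refine ⟨n + 1, ?_⟩
    have h1 := Subalgebra.mul_mem _ (hR _ hn) hν1
    rw [hm_mul] at h1
    rw [hm_pow, hm_mul, mul_zero]
    have h2 : ν ^ (n + 1) * algebraMap B' K e = ν ^ n * algebraMap B' K e * ν := by ring
    rw [h2]
    exact h1
  · have ha0 : a = 0 := by omega
    subst ha0
    obtain ⟨n, hn⟩ := hle c hc
    refine ⟨n, ?_⟩
    rw [wt_zero, Function.iterate_zero_apply, hm_pow, mul_zero]
    show hm 0 (ν ^ n) * hm 0 c ∈ _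
    rw [hm_mul, zero_add]
    exact hR _ hn

end

section

variable {k k' K K₂ : Type} [CommRing k] [CommRing k'] [Field K] [Field K₂] [Algebra k K]
  [Algebra k' K] [Algebra k K₂] [Algebra k' K₂]

/-- the passage from the first to the second grading, different base rings -/
lemma glueX {ε : LP K →ₐ[k] K₂} {ε' : LP K →ₐ[k'] K₂} (hεε : ∀ w, ε' w = ε w)
    {R : Subalgebra k (LP K)} {R' : Subalgebra k' (LP K)} {π π' x : K}
    (hm1 : ∀ (d b : ℤ) (a : K), hm d (ε (hm b a)) ∈ R2 ε R π ↔ hm d (a * π ^ (-b)) ∈ R)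
    (hbg : BG ε' (R2 ε' R' π'))
    (hm2 : ∀ (d b : ℤ) (a : K), hm d (ε' (hm b a)) ∈ R2 ε' R' π' ↔ hm d (a * π' ^ (-b)) ∈ R')
    (hx : hm 0 x ∈ R) (hk : ∀ c : k', ∃ n : ℕ, hm 0 (x ^ n * algebraMap k' K c) ∈ R)
    (h : ∀ (d b : ℤ) (a : K), hm d (a * π' ^ (-b)) ∈ R' →
      ∃ n : ℕ, hm d (x ^ n * a * π ^ (-b)) ∈ R) :
    hm 0 (ε (hm 0 x)) ∈ R2 ε R π ∧
      ∀ f ∈ R2 ε' R' π', ∃ n : ℕ, hm 0 (ε (hm 0 x)) ^ n * f ∈ R2 ε R π := by
  have h0 : hm 0 (ε (hm 0 x)) ∈ R2 ε R π := by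
    rw [hm1]
    rw [neg_zero, zpow_zero, mul_one]
    exact hx
  refine ⟨h0, fun f hf => ?_⟩
  have hf' := hbg f hf
  clear hf
  set u : LP K₂ := hm 0 (ε (hm 0 x)) with hu
  set C := R2 ε R π with hC
  have key : ∀ (a b : ℕ) (g : LP K₂), a ≤ b → u ^ a * g ∈ C → u ^ b * g ∈ C := by
    intro a b g hab hg
    have e : u ^ b * g = u ^ (b - a) * (u ^ a * g) := by
      rw [← mul_assoc, ← pow_add, Nat.sub_add_cancel hab]
    rw [e]
    exact C.mul_mem (C.pow_mem h0 _) hg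
  induction hf' using Submodule.span_induction with
  | mem g hg =>
    obtain ⟨hg, d, b, a, rfl⟩ := hg
    obtain ⟨n, hn⟩ := h d b a ((hm2 d b a).1 hg)
    refine ⟨n, ?_⟩
    rw [hu, hεε, Pool.Agent.Y779.H.mono, hC, hm1]
    exact hn
  | zero => exact ⟨0, by rw [mul_zero]; exact C.zero_mem⟩
  | add f g _ _ ihf ihg =>
    obtain ⟨n, hn⟩ := ihf
    obtain ⟨n', hn'⟩ := ihg
    refine ⟨max n n', ?_⟩
    rw [mul_add]
    exact C.add_mem (key _ _ _ (le_max_left _ _) hn) (key _ _ _ (le_max_right _ _) hn')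
  | smul r g _ ih =>
    obtain ⟨n, hn⟩ := ih
    obtain ⟨n', hn'⟩ := hk r
    refine ⟨n' + n, ?_⟩
    have e1 : r • g = hm 0 (algebraMap k' K₂ r) * g := by
      rw [Algebra.smul_def, algebraMap_LP]
    have e2 : algebraMap k' K₂ r = ε (hm 0 (algebraMap k' K r)) := by
      rw [← hεε, ← algebraMap_LP, AlgHom.commutes]
    have e3 : u ^ (n' + n) * (r • g) =
        (u ^ n' * hm 0 (ε (hm 0 (algebraMap k' K r)))) * (u ^ n * g) := by
      rw [e1, e2, pow_add]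
      ring
    rw [e3]
    refine C.mul_mem ?_ hn
    rw [hu, Pool.Agent.Y779.H.mono, hC, hm1, neg_zero, zpow_zero, mul_one]
    exact hn'

end

theorem t_XG : S_R2M → Pool.Agent.Y223.G.S_RWB → S_XG := by
  classical
  intro r2 rwb k k' O O' K K₂ Ω _ _ _ _ _ _ _ _ _ _ _ _ _ _ _ _ _ ε ε' hεε hε hε' m z s s' hs hs'
    N N' _ _ 𝔔 𝔔' e e' W W' he he' π π' hπ hπ' d Φ hΦ ν hνO h𝔔 hO' hn₀
  have hB := fun i => rwb k (OL O (K := K) s) K Ω (𝔔 i) (e i) (he i) m (W i) z d Φ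
  set C : Subalgebra (OL O (K := K) s) K := CG (OL O (K := K) s) z d Φ with hC
  have hR := r2 k K K₂ ε hε (RX k C (fun i => RW k (𝔔 i) (e i) (W i) z d Φ))
    (RX_gr fun i => (hB i).2.2.1) π hπ
  have hleC : ∀ ω, AF (OL O (K := K) s) (z ω) d (Φ ω) ≤ C := fun ω =>
    le_iSup (fun ω => AF (OL O (K := K) s) (z ω) d (Φ ω)) ω
  have hR' := r2 k' K K₂ ε' hε'
    (RX k' (CG (OL O' (K := K) s') z d Φ) (fun i => RW k' (𝔔' i) (e' i) (W' i) z d Φ))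
    (RX_gr fun i => RW_gr) π' hπ'
  have hOLC : ∀ x : K, x ∈ OL O (K := K) s → x ∈ C := fun x hx =>
    Subalgebra.algebraMap_mem C (⟨x, hx⟩ : OL O (K := K) s)
  have hνC : ν ∈ C := hOLC ν hνO
  have hνR0 : hm 1 ν ∈ RR k 1 1 ⊤ 0 C :=
    RR_e (k := k) (τ := (1 : K ≃ₐ[k] K)) (p := 1) (𝔓 := (⊤ : Ideal (OL O (K := K) s)))
      (l := 0) (C := C) (e := (⟨ν, hνO⟩ : OL O (K := K) s)) Submodule.mem_top
  have hνR1 : ∀ i, hm 1 ν ∈ RW k (𝔔 i) (e i) (W i) z d Φ := fun i =>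
    (hB i).2.2.2.2.1 _ (h𝔔 i)
  have hBC : ∀ r : OL O' (K := K) s', ∃ n : ℕ,
      ν ^ n * algebraMap (OL O' (K := K) s') K r ∈ C := fun r => by
    obtain ⟨n, hn⟩ := hO' r r.2
    exact ⟨n, hOLC _ hn⟩
  have hkC : ∀ c : k', ∃ n : ℕ, ν ^ n * algebraMap k' K c ∈ C := fun c => by
    obtain ⟨n, hn⟩ := hO' _ (Subalgebra.algebraMap_mem (OL O' (K := K) s') c)
    exact ⟨n, hOLC _ hn⟩
  have hle : ∀ c ∈ CG (OL O' (K := K) s') z d Φ, ∃ n : ℕ, ν ^ n * c ∈ C := by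
    have h1 : CG (OL O' (K := K) s') z d Φ ≤ TT C ν hνC hBC := by
      refine iSup_le fun ω => Algebra.adjoin_le ?_
      rintro _ ⟨x, hx, rfl⟩
      refine ⟨0, ?_⟩
      rw [pow_zero, one_mul]
      exact hleC ω (Algebra.subset_adjoin ⟨x, hx, rfl⟩)
    exact h1
  have hνR : ∀ i, hm 0 ν ∈ RW k (𝔔 i) (e i) (W i) z d Φ := fun i => (hB i).1 ν hνC
  have hkLP : ∀ (R : Subalgebra k (LP K)), (∀ c ∈ C, hm 0 c ∈ R) →
      ∀ c : k', ∃ n : ℕ, hm 0 ν ^ n * algebraMap k' (LP K) c ∈ R := by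
    intro R hR c
    obtain ⟨n, hn⟩ := hkC c
    refine ⟨n, ?_⟩
    rw [hm_pow, mul_zero, algebraMap_LP, hm_mul, zero_add]
    exact hR _ hn
  refine glueX hεε hR.2 hR'.1 hR'.2 (RX_c hνC hνR) (fun c => ?_) fun d' b a ha => ?_
  · obtain ⟨n, hn⟩ := hkC c
    exact ⟨n, RX_c hn fun i => (hB i).1 _ hn⟩
  have ha' := mem_RX.1 ha
  obtain ⟨n, hn⟩ := combX (N := N) hνC hνR
    (rr_locX (fun c hc => RR_c one_pos hc) RR_s (RR_c one_pos hνC) hνR0
      (hkLP _ fun c hc => RR_c one_pos hc) hBC hle ha'.1)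
    (fun i => rr_locX (hB i).1 (hB i).2.2.2.1 (hνR i) (hνR1 i) (hkLP _ (hB i).1) hBC hle ha'.1)
  obtain ⟨n₀, h1, h2⟩ := hn₀
  rw [hm_pow, hm_mul, mul_zero, zero_add] at hn
  -- the power of the quotient of the uniformizers
  have hq : ν ^ (n₀ * b.natAbs) * (π' / π) ^ b ∈ OL O (K := K) s := by
    rcases Int.natAbs_eq b with hb | hb
    · have e : ν ^ (n₀ * b.natAbs) * (π' / π) ^ b = (ν ^ n₀ * (π' / π)) ^ b.natAbs := by
        conv_lhs => rw [hb]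
        rw [mul_pow, zpow_natCast, pow_mul, Int.natAbs_natCast]
      rw [e]
      exact Subalgebra.pow_mem _ h1 _
    · have e : ν ^ (n₀ * b.natAbs) * (π' / π) ^ b = (ν ^ n₀ * (π / π')) ^ b.natAbs := by
        conv_lhs => rw [hb]
        rw [mul_pow, zpow_neg, zpow_natCast, pow_mul, Int.natAbs_neg, Int.natAbs_natCast,
          ← inv_pow, inv_div]
      rw [e]
      exact Subalgebra.pow_mem _ h2 _
  have hqC : hm 0 (ν ^ (n₀ * b.natAbs) * (π' / π) ^ b) ∈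
      RX k C (fun i => RW k (𝔔 i) (e i) (W i) z d Φ) :=
    RX_c (hOLC _ hq) fun i => (hB i).1 _ (hOLC _ hq)
  refine ⟨n₀ * b.natAbs + n, ?_⟩
  have h4 := Subalgebra.mul_mem _ hqC hn
  rw [hm_mul, zero_add] at h4
  have e : ν ^ (n₀ * b.natAbs) * (π' / π) ^ b * (ν ^ n * (a * π' ^ (-b))) =
      ν ^ (n₀ * b.natAbs + n) * a * π ^ (-b) := by
    have e1 : (π' / π) ^ b * π' ^ (-b) = π ^ (-b) := by
      rw [div_zpow, zpow_neg, zpow_neg]
      have := zpow_ne_zero b hπ'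
      have := zpow_ne_zero b hπ
      field_simp
    rw [← e1, pow_add]
    ring
  rwa [e] at h4

end Pool.Agent.K3h66.FF
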