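import Pool.Agent.K3h66.FF.Fmf2
import Pool.Agent.K3h66.TO.Fml
import Pool.Agent.K3h75.TV.Pk2

/-!
# The family of the coordinates over a general Dedekind domain

The family of the coordinates does not depend on the Dedekind domain.
-/

set_option autoImplicit false
set_option linter.unusedSectionVars false

namespace Pool.Agent.K3h66.FF

open Pool.Agent.Y223.G Pool.Agent.W418.LU2 Pool.Agent.R383.TM Module
open Pool.Agent.K3h75.TO Pool.Agent.K3h66.TO.F Pool.Agent.K3h22.PK Pool.Agent.K3h75.TV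

theorem ind_of {Λ M O K : Type} [Field M] [CommRing O] [Field K] [Algebra M K] [Algebra O K]
    {x : Λ → K} (hx : LinearIndependent M x) (hinj : Function.Injective (algebraMap O K))
    (hlo : ∀ o : O, ∃ c : M, algebraMap M K c = algebraMap O K o) : LinearIndependent O x := by
  choose f hf using hlo
  rw [linearIndependent_iff'] at hx ⊢
  intro s g hg i hi
  have h1 : ∑ i ∈ s, f (g i) • x i = 0 := by
    rw [← hg]
    refine Finset.sum_congr rfl fun i _ => ?_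
    rw [Algebra.smul_def, Algebra.smul_def, hf]
  have h2 := hx s (fun i => f (g i)) h1 i hi
  have h3 : algebraMap O K (g i) = 0 := by
    rw [← hf]
    change algebraMap M K (f (g i)) = 0
    rw [h2, map_zero]
  exact hinj (by rw [h3, map_zero])

/-- **FMF**: the family of the coordinates of a torus, over all Dedekind domains at once. -/
def S_FMF : Prop := ∀ (G Λ M K : Type) [Group G] [Finite G] [AddCommGroup Λ]
  [DistribMulAction G Λ] (P : Finset Λ), SmP P → (∀ (g : G), ∀ μ ∈ P, g • μ ∈ P) →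
  ∀ [Field M] [Field K] [Algebra M K] (ρ : G →* (K ≃+* K)) (x : Λ → K), x 0 = 1 →
  (∀ a b, x (a + b) = x a * x b) → LinearIndependent M x →
  IntermediateField.adjoin M (Set.range x) = ⊤ → (∀ g a, ρ g (x a) = x (g • a)) →
  ∃ (k₀ m : ℕ) (z : Fin (m + 1) → K), 1 ≤ k₀ ∧ (∀ j, z j ≠ 0) ∧
    (∀ j, z j ∈ AddSubgroup.closure (x '' (Pk P k₀ : Set Λ))) ∧
    (∀ μ ∈ Pk P k₀, ∃ j, z j = x μ) ∧
    IntermediateField.adjoin M (Set.range fun j => z j / z 0) = ⊤ ∧
    (∀ g j, ∃ j', z j' = ρ g (z j)) ∧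
    ∀ (k O : Type) [CommRing k] [CommRing O] [IsDomain O] [IsDedekindDomain O] [Algebra k O]
      [Algebra O K] [Algebra k K] [IsScalarTower k O K], Function.Injective (algebraMap O K) →
      (∀ o : O, ∃ c : M, algebraMap M K c = algebraMap O K o) →
      ∀ (ρ' : G →* (K ≃ₐ[k] K)) (T : G →* (O ≃ₐ[k] O)), (∀ g y, ρ' g y = ρ g y) →
      (∀ g o, ρ g (algebraMap O K o) = algebraMap O K (T g o)) →
      (∀ (𝔓 : Ideal O) (g : G), 𝔓.IsMaximal → IsWg T 𝔓 g → NumW T 𝔓 g) →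
      (∀ j, IsRegularRing (Algebra.adjoin O (Set.range fun i => z i / z j))) ∧
      ∃ w : Ideal O → Fin (m + 1) → ℕ, WD k O K G ρ' T z (fun _ => 1) w

theorem t_FMF (hPK : S_PK2) (hVREG : S_VREG) (hVNZ : S_VNZ) (hCHT : S_CHT) (hCH0 : S_CH0) :
    S_FMF := by
  intro G Λ M K _ _ _ _ P₀ hSm hst₀ _ _ _ ρ x hx0 hxa hxi hgen hact
  obtain ⟨k₀, hk₀, hst, hvx⟩ := hPK Λ G P₀ hSm hst₀
  obtain ⟨v₀, hv₀⟩ := hSm.ne
  have hPne : (Pk P₀ k₀).Nonempty := ⟨k₀ • v₀, smul_mem_Pk P₀ k₀ hv₀⟩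
  clear hv₀ v₀
  obtain ⟨P, hP⟩ : ∃ P, P = Pk P₀ k₀ := ⟨_, rfl⟩
  rw [← hP] at hst hvx hPne
  have hchM : Chr Λ M K x := ⟨hx0, hxa, hxi⟩
  obtain ⟨m, z, c, hE⟩ := exists_EG ρ x P hPne hchM.ne
  have hz : ∀ j, z j ≠ 0 := by
    intro j
    rw [(hE.fwd j).1]
    exact (hE.fwd j).2
  have hzs : ∀ j, z j ∈ AddSubgroup.closure (x '' (P : Set Λ)) := by
    intro j
    rw [(hE.fwd j).1]
    exact val_cl hst hact _
  have hxz : ∀ μ ∈ P, ∃ j, z j = x μ := by
    intro μ hμ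
    obtain ⟨j, hj⟩ := hE.bwd (Sum.inl ⟨μ, hμ⟩) (hchM.ne μ)
    refine ⟨j, ?_⟩
    rw [(hE.fwd j).1, hj]
    rfl
  have hcj : ∀ (g : G) j, ∃ (k : Fin (m + 1)), z k = ρ g (z j) ∧ c k = cjg hst g (c j) := by
    intro g j
    have h4 : vlg ρ x (cjg hst g (c j)) ≠ 0 := by
      rw [val_cj hst hact]
      intro h5
      exact (hE.fwd j).2 ((map_eq_zero_iff _ (ρ g).injective).1 h5)
    obtain ⟨k, hk⟩ := hE.bwd _ h4
    exact ⟨k, by rw [(hE.fwd k).1, hk, val_cj hst hact, (hE.fwd j).1], hk⟩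
  refine ⟨k₀, m, z, hk₀, hz, by rw [← hP]; exact hzs, by rw [← hP]; exact hxz, ?_, ?_, ?_⟩
  · obtain ⟨μ, hμ⟩ := hPne
    obtain ⟨v, hv, -, n, b, hb, -, -⟩ := hvx μ hμ
    exact gen_top hx0 hxa hgen hz hxz hv b hb
  · intro g j
    obtain ⟨k, hk, -⟩ := hcj g j
    exact ⟨k, hk⟩
  intro k O _ _ _ _ _ _ _ _ hinj hlo ρ' T hρ' hcom hnum
  have hch : Chr Λ O K x := ⟨hx0, hxa, ind_of hxi hinj hlo⟩
  have hzsO : ∀ j, z j ∈ Submodule.span O (x '' (P : Set Λ)) := fun j => cl_span (hzs j)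
  have hWN : ∀ (I : Ideal O) (g : G), I.IsMaximal → IsWg T I g →
      ∃ p l : ℕ, WG T ρ x I g p l := by
    intro I g hI hg
    obtain ⟨p, l, hp, hl, hI0, hgp, hpl, hdv, hun, hal⟩ := hnum I g hI hg
    refine ⟨p, l, ?_, hg, hgp, lw_eq hg hp hgp hdv hun hal, hal⟩
    exact
      { toChr := hch
        pp := hp
        mx := hI
        ne := hI0
        com := fun o => hcom g o
        act := fun a => hact g a
        ord := by
          intro y
          rw [rho_iter, hgp, map_one]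
          rfl
        l1 := hl
        dv := hdv
        un := hun
        pl := hpl }
  have hC : ∀ (I : Ideal O) (g : G) (p l : ℕ), WG T ρ x I g p l → ∀ j,
      IsRegularRing (WB x (ρ g) (ta Λ g) p l I P (z j)) ∧
      ∀ (Q : Ideal (WB x (ρ g) (ta Λ g) p l I P (z j))) [Q.IsPrime],
      Zr2 x (ρ g) (T g).toRingEquiv (ta Λ g) p l I P (z j) Q →
      ∀ (k : ℕ) (y : K), 0 < k → hm k y ∈ WB x (ρ g) (ta Λ g) p l I P (z j) →
        MQ _ Q (hm k y) := by
    intro I g p l h j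
    have hst' : ∀ a ∈ P, ta Λ g a ∈ P := fun a ha => hst g a ha
    refine hCHT Λ O K x (ρ g) (T g).toRingEquiv (ta Λ g) p l I h.wd P hst'
      ?_ (z j) (hz j) (hzsO j)
    intro μ hμ
    obtain ⟨v, hv, hms, n, b, hb, hnn, hLg⟩ := hvx μ hμ
    have hVx : Vx b (ta Λ g) p P v := by
      refine ⟨hv, hst', hb, hnn, ?_⟩
      refine hLg g p h.wd.pp ?_
      intro a
      have h1 := ta_iter g p a
      rw [h.gp, one_smul] at h1
      exact h1
    exact ⟨v, hv, hms,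
      hVREG Λ O K x (ρ g) (T g).toRingEquiv (ta Λ g) p l I h.wd n b P v hVx,
      hVNZ Λ O K x (ρ g) (T g).toRingEquiv (ta Λ g) p l I h.wd n b P v hVx⟩
  refine ⟨?_, fun I j => wtg T I (c j), ?_⟩
  · intro j
    rw [adj_eq hzsO hxz]
    refine hCH0 Λ O K x hch P ?_ (z j) (hz j) (hzsO j)
    intro μ hμ
    obtain ⟨v, hv, hms, n, b, hb, hnn, -⟩ := hvx μ hμ
    exact ⟨v, hv, hms, n, b, hb, hnn⟩
  · refine ⟨fun _ => one_pos, ?_, ?_, ?_⟩
    · rintro I hI ⟨g, hg, hw⟩ j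
      obtain ⟨p, l, h⟩ := hWN I g hI ⟨hg, hw⟩
      refine WR_reg ?_
      rw [BR_WB hst hact h hE j]
      exact (hC I g p l h j).1
    · rintro I hI ⟨g, hg, hw⟩ h J hh
      refine ⟨rfl, fun i j => WR_mem ?_⟩
      obtain ⟨k', hk, h1⟩ := hcj h i
      have h3 : wtg T I (c i) = wtg T J (c k') := by
        rw [h1, wt_cj hst hh]
      rw [h3, hρ', ← hk]
      exact Algebra.subset_adjoin (Or.inr ⟨k', rfl⟩)
    · intro I hI g hg hw
      obtain ⟨p, l, h⟩ := hWN I g hI ⟨hg, hw⟩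
      refine ⟨l, l, h.wd.l1, by rw [one_mul], h.wd.dv, ?_, ?_⟩
      · intro i j
        refine WR_mem ?_
        rw [BR_WB hst hact h hE j, mo_eq, hρ', (hE.fwd i).1]
        exact v_lin hst hact h (z j) (c i)
      · intro j
        have h4 : (fun y : K => ρ' g y) = ρ g := by
          funext y
          exact hρ' g y
        have h5 := nf_of hst hact h hE hz j (hC I g p l h j).2
        refine FIX_of (k := k) (ρ' g) (T g) ?_ ?_
        · intro o
          rw [hρ']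
          exact hcom g o
        · change NF _ I 1 l _ z (fun y : K => ρ' g y) j
          rw [h4]
          exact h5

end Pool.Agent.K3h66.FF
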