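import Pool.Agent.K3h66.TO.Fml1

/-!
# The family of the coordinates over a general Dedekind domain, part 1: wild elements, conjugation
-/

set_option autoImplicit false
set_option linter.unusedSectionVars false

namespace Pool.Agent.K3h66.FF

open Pool.Agent.Y223.G Pool.Agent.W418.LU2 Pool.Agent.R383.TM Module
open Pool.Agent.K3h75.TO Pool.Agent.K3h66.TO.F

section arith

variable {k O G : Type} [CommRing k] [CommRing O] [Algebra k O] [Group G]
  (T : G →* (O ≃ₐ[k] O))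

/-- `g ≠ 1` is in the wild inertia group of `I`. -/
def IsWg (I : Ideal O) (g : G) : Prop := g ≠ 1 ∧ Wild T g I

/-- `h` maps `I` to `J`. -/
def IsCjg (h : G) (I J : Ideal O) : Prop := ∀ o, o ∈ I ↔ T h o ∈ J

variable {T}

theorem T_mul (g h : G) (o : O) : T (g * h) o = T g (T h o) := by
  rw [map_mul]
  rfl

theorem T_one (o : O) : T (1 : G) o = o := by
  rw [map_one]
  rfl

theorem cj_pow {h : G} {I J : Ideal O} (hh : IsCjg T h I J) (n : ℕ) (o : O) :
    o ∈ I ^ n ↔ T h o ∈ J ^ n := by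
  set e : O ≃+* O := (T h).toRingEquiv with he
  have h1 : I.map e = J := by
    ext y
    rw [Ideal.mem_map_of_equiv]
    constructor
    · rintro ⟨z, hz, rfl⟩
      exact (hh z).1 hz
    · intro hy
      refine ⟨e.symm y, (hh _).2 ?_, e.apply_symm_apply y⟩
      have h2 : T h (e.symm y) = y := e.apply_symm_apply y
      rw [h2]
      exact hy
  have h2 : (I ^ n).map e = J ^ n := by
    rw [Ideal.map_pow, h1]
  rw [← h2, Ideal.mem_map_of_equiv]
  constructor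
  · intro ho
    exact ⟨o, ho, rfl⟩
  · rintro ⟨z, hz, hzo⟩
    have : z = o := e.injective hzo
    rwa [← this]

theorem cj_sub (h g : G) (o : O) :
    T (h * g * h⁻¹) (T h o) - T h o = T h (T g o - o) := by
  rw [← T_mul, inv_mul_cancel_right, T_mul, map_sub]

theorem cj_surj (h : G) (o : O) : ∃ o', T h o' = o :=
  ⟨T h⁻¹ o, by rw [← T_mul, mul_inv_cancel, T_one]⟩

theorem cj_dv {h : G} {I J : Ideal O} (hh : IsCjg T h I J) (g : G) (n : ℕ) :
    (∀ o : O, T g o - o ∈ I ^ n) ↔ ∀ o : O, T (h * g * h⁻¹) o - o ∈ J ^ n := by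
  constructor
  · intro h1 o
    obtain ⟨o', rfl⟩ := cj_surj (T := T) h o
    rw [cj_sub, ← cj_pow hh]
    exact h1 o'
  · intro h1 o
    rw [cj_pow hh, ← cj_sub]
    exact h1 _

theorem cj_isW {h : G} {I J : Ideal O} (hh : IsCjg T h I J) (g : G) :
    IsWg T I g ↔ IsWg T J (h * g * h⁻¹) := by
  unfold IsWg Wild
  refine and_congr ?_ (and_congr ?_ ?_)
  · refine not_congr ?_
    rw [mul_inv_eq_one]
    constructor
    · rintro rfl
      rw [mul_one]
    · intro h1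
      exact mul_eq_left.1 h1
  · have := cj_dv hh g 1
    rwa [pow_one, pow_one] at this
  · constructor
    · intro h1 o ho
      obtain ⟨o', rfl⟩ := cj_surj (T := T) h o
      rw [cj_sub, ← cj_pow hh]
      exact h1 o' ((hh o').2 ho)
    · intro h1 o ho
      rw [cj_pow hh, ← cj_sub]
      exact h1 _ ((hh o).1 ho)

variable (T) in
/-- the depth of the wild elements -/
noncomputable def lw (I : Ideal O) : ℕ :=
  sSup {l | ∃ g : G, IsWg T I g ∧ ∀ o, T g o - o ∈ I ^ (l + 1)}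

theorem cj_lw {h : G} {I J : Ideal O} (hh : IsCjg T h I J) : lw T I = lw T J := by
  unfold lw
  congr 1
  ext l
  constructor
  · rintro ⟨g, hg, hg'⟩
    exact ⟨h * g * h⁻¹, (cj_isW hh g).1 hg, (cj_dv hh g _).1 hg'⟩
  · rintro ⟨g, hg, hg'⟩
    have h1 : g = h * (h⁻¹ * g * h) * h⁻¹ := by group
    rw [h1] at hg hg'
    exact ⟨h⁻¹ * g * h, (cj_isW hh _).2 hg, (cj_dv hh _ _).2 hg'⟩

theorem dv_pow {I : Ideal O} {g : G} (h : ∀ o, T g o - o ∈ I) (f : ℕ)
    (o : O) : T (g ^ f) o - o ∈ I := by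
  induction f generalizing o with
  | zero => rw [pow_zero, T_one, sub_self]; exact I.zero_mem
  | succ f ih =>
    rw [pow_succ, T_mul]
    have h1 := I.add_mem (ih (T g o)) (h o)
    rwa [sub_add_sub_cancel] at h1

theorem lw_eq {I : Ideal O} {g : G} (hg : IsWg T I g) {p l : ℕ} (hp : p.Prime)
    (hgp : g ^ p = 1) (hdv : ∀ o : O, T g o - o ∈ I ^ (l + 1))
    (hun : ∃ π ∈ I, T g π - π ∉ I ^ (l + 2))
    (hal : ∀ h : G, IsWg T I h ↔ ∃ e : ℕ, 1 ≤ e ∧ e < p ∧ h = g ^ e) : lw T I = l := by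
  have hb : ∀ l' ∈ {l | ∃ g : G, IsWg T I g ∧ ∀ o, T g o - o ∈ I ^ (l + 1)},
      l' ≤ l := by
    rintro l' ⟨h, hh, hh'⟩
    obtain ⟨e, h1, h2, rfl⟩ := (hal h).1 hh
    obtain ⟨f, hf⟩ := gen_pow hp hgp h1 h2
    by_contra hcon
    push Not at hcon
    obtain ⟨π, hπ, hπ'⟩ := hun
    refine hπ' (Ideal.pow_le_pow_right (show l + 2 ≤ l' + 1 by omega) ?_)
    have h3 := dv_pow hh' f π
    rwa [hf] at h3
  refine le_antisymm (csSup_le ⟨l, g, hg, hdv⟩ hb) (le_csSup ⟨l, hb⟩ ⟨g, hg, hdv⟩)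

variable (T) in
/-- The wild inertia group of `I` is cyclic of prime order `p`, generated by `g`, with the
ramification number `l`. -/
def NumW (I : Ideal O) (g : G) : Prop :=
  ∃ p l : ℕ, p.Prime ∧ 1 ≤ l ∧ I ≠ ⊥ ∧ g ^ p = 1 ∧
    (p : O) ∈ I ^ ((p - 1) * l) ∧ (∀ o : O, T g o - o ∈ I ^ (l + 1)) ∧
    (∃ π ∈ I, T g π - π ∉ I ^ (l + 2)) ∧
    ∀ h : G, IsWg T I h ↔ ∃ e : ℕ, 1 ≤ e ∧ e < p ∧ h = g ^ e

end arith

end Pool.Agent.K3h66.FF
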