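import Pool.Agent.K3h66.FF.Fmf1
import Pool.Agent.K3h66.TO.CHT

/-!
# The family of the coordinates over a general Dedekind domain, part 2: the raw family
-/

set_option autoImplicit false
set_option linter.unusedSectionVars false

namespace Pool.Agent.K3h66.FF

open Pool.Agent.Y223.G Pool.Agent.W418.LU2 Pool.Agent.R383.TM Module
open Pool.Agent.K3h75.TO Pool.Agent.K3h66.TO.F

section data

variable {G : Type} [Group G] {Λ : Type} [AddCommGroup Λ] [DistribMulAction G Λ]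
  {K : Type} [Field K]

/-- the raw indices -/
abbrev JG (G : Type) [Group G] {Λ : Type} (P : Finset Λ) : Type :=
  ↥P ⊕ (G × Fin (Nat.card G) × ↥P × ↥P)

/-- the values -/
def vlg (ρ : G →* (K ≃+* K)) (x : Λ → K) {P : Finset Λ} : JG G P → K
  | Sum.inl μ => x μ
  | Sum.inr j => (df (ρ j.1))^[(j.2.1 : ℕ)] (x j.2.2.1 - x j.2.2.2)

open Classical in
/-- the weights -/
noncomputable def wtg {k O : Type} [CommRing k] [CommRing O] [Algebra k O]
    (T : G →* (O ≃ₐ[k] O)) {P : Finset Λ} (I : Ideal O) : JG G P → ℕ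
  | Sum.inl _ => 0
  | Sum.inr j => if IsWg T I j.1 ∧ (j.2.1 : ℕ) < orderOf j.1 ∧
      Nm (ta Λ j.1) (orderOf j.1) ((j.2.2.1 : Λ) - j.2.2.2) = 0 then (j.2.1 + 1) * lw T I else 0

/-- conjugation of the indices -/
def cjg {P : Finset Λ} (hst : ∀ (g : G), ∀ μ ∈ P, g • μ ∈ P) (h : G) :
    JG G P → JG G P
  | Sum.inl μ => Sum.inl ⟨h • (μ : Λ), hst h μ μ.2⟩
  | Sum.inr j => Sum.inr (h * j.1 * h⁻¹, j.2.1, ⟨h • (j.2.2.1 : Λ), hst h _ j.2.2.1.2⟩,
      ⟨h • (j.2.2.2 : Λ), hst h _ j.2.2.2.2⟩)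

variable {ρ : G →* (K ≃+* K)} {x : Λ → K} {P : Finset Λ}

theorem df_cj (h g : G) (a : ℕ) (y : K) :
    (df (ρ (h * g * h⁻¹)))^[a] (ρ h y) = ρ h ((df (ρ g))^[a] y) := by
  induction a generalizing y with
  | zero => rfl
  | succ a ih =>
    rw [Function.iterate_succ_apply, Function.iterate_succ_apply, ← ih]
    congr 1
    change ρ (h * g * h⁻¹) (ρ h y) - ρ h y = ρ h (ρ g y - y)
    have h1 : ρ (h * g * h⁻¹) (ρ h y) = ρ h (ρ g y) := by
      rw [← RingAut.mul_apply, ← map_mul, inv_mul_cancel_right, map_mul, RingAut.mul_apply]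
    rw [h1, map_sub]

theorem ord_cj {G : Type} [Group G] (h g : G) : orderOf (h * g * h⁻¹) = orderOf g := by
  rw [orderOf_eq_orderOf_iff]
  intro n
  rw [conj_pow, mul_inv_eq_one, mul_eq_left]

theorem val_cj (hst : ∀ (g : G), ∀ μ ∈ P, g • μ ∈ P)
    (hact : ∀ g a, ρ g (x a) = x (g • a)) (h : G) (i : JG G P) :
    vlg ρ x (cjg hst h i) = ρ h (vlg ρ x i) := by
  rcases i with μ | ⟨g, a, μ, ν⟩
  · exact (hact h μ).symm
  · change (df (ρ (h * g * h⁻¹)))^[(a : ℕ)] (x (h • (μ : Λ)) - x (h • (ν : Λ))) =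
      ρ h ((df (ρ g))^[(a : ℕ)] (x μ - x ν))
    rw [← df_cj, map_sub, hact, hact]

theorem wt_cj {k O : Type} [CommRing k] [CommRing O] [Algebra k O] {T : G →* (O ≃ₐ[k] O)}
    (hst : ∀ (g : G), ∀ μ ∈ P, g • μ ∈ P) {h : G}
    {I J : Ideal O} (hh : IsCjg T h I J) (i : JG G P) :
    wtg T J (cjg hst h i) = wtg T I i := by
  classical
  rcases i with μ | ⟨g, a, μ, ν⟩
  · rfl
  · have h1 : (IsWg T J (h * g * h⁻¹) ∧ (a : ℕ) < orderOf (h * g * h⁻¹) ∧
        Nm (ta Λ (h * g * h⁻¹)) (orderOf (h * g * h⁻¹)) (h • (μ : Λ) - h • (ν : Λ)) = 0) ↔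
        (IsWg T I g ∧ (a : ℕ) < orderOf g ∧ Nm (ta Λ g) (orderOf g) ((μ : Λ) - ν) = 0) := by
      rw [← cj_isW hh, ord_cj, ← smul_sub, Nm_cj, smul_eq_zero_iff_eq]
    change (if IsWg T J (h * g * h⁻¹) ∧ (a : ℕ) < orderOf (h * g * h⁻¹) ∧
        Nm (ta Λ (h * g * h⁻¹)) (orderOf (h * g * h⁻¹)) (h • (μ : Λ) - h • (ν : Λ)) = 0 then
        ((a : ℕ) + 1) * lw T J else 0) = if IsWg T I g ∧ (a : ℕ) < orderOf g ∧
        Nm (ta Λ g) (orderOf g) ((μ : Λ) - ν) = 0 then ((a : ℕ) + 1) * lw T I else 0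
    rw [cj_lw hh]
    simp only [h1]

theorem cl_rho (hst : ∀ (g : G), ∀ μ ∈ P, g • μ ∈ P)
    (hact : ∀ g a, ρ g (x a) = x (g • a)) (g : G) {y : K}
    (hy : y ∈ AddSubgroup.closure (x '' (P : Set Λ))) :
    ρ g y ∈ AddSubgroup.closure (x '' (P : Set Λ)) := by
  induction hy using AddSubgroup.closure_induction with
  | mem y hy =>
    obtain ⟨μ, hμ, rfl⟩ := hy
    rw [hact]
    exact AddSubgroup.subset_closure ⟨g • μ, hst g μ hμ, rfl⟩
  | zero => rw [map_zero]; exact AddSubgroup.zero_mem _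
  | add y z _ _ hy hz => rw [map_add]; exact AddSubgroup.add_mem _ hy hz
  | neg y _ hy => rw [map_neg]; exact AddSubgroup.neg_mem _ hy

theorem val_cl (hst : ∀ (g : G), ∀ μ ∈ P, g • μ ∈ P)
    (hact : ∀ g a, ρ g (x a) = x (g • a)) (i : JG G P) :
    vlg ρ x i ∈ AddSubgroup.closure (x '' (P : Set Λ)) := by
  rcases i with μ | ⟨g, a, μ, ν⟩
  · exact AddSubgroup.subset_closure ⟨μ, μ.2, rfl⟩
  · have h1 : ∀ (a : ℕ) (y : K), y ∈ AddSubgroup.closure (x '' (P : Set Λ)) →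
        (df (ρ g))^[a] y ∈ AddSubgroup.closure (x '' (P : Set Λ)) := by
      intro a
      induction a with
      | zero => intro y hy; exact hy
      | succ a ih =>
        intro y hy
        rw [Function.iterate_succ_apply]
        exact ih _ (AddSubgroup.sub_mem _ (cl_rho hst hact g hy) hy)
    exact h1 _ _ (AddSubgroup.sub_mem _ (AddSubgroup.subset_closure ⟨μ, μ.2, rfl⟩)
      (AddSubgroup.subset_closure ⟨ν, ν.2, rfl⟩))

theorem cl_span {O : Type} [CommRing O] [Algebra O K] {y : K}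
    (hy : y ∈ AddSubgroup.closure (x '' (P : Set Λ))) :
    y ∈ Submodule.span O (x '' (P : Set Λ)) := by
  have h1 : AddSubgroup.closure (x '' (P : Set Λ)) ≤
      (Submodule.span O (x '' (P : Set Λ))).toAddSubgroup := by
    rw [AddSubgroup.closure_le]
    exact Submodule.subset_span
  exact h1 hy

/-- The family `z` is the family of the nonzero values. -/
structure EG (ρ : G →* (K ≃+* K)) (x : Λ → K) (P : Finset Λ) {m : ℕ}
    (z : Fin (m + 1) → K) (c : Fin (m + 1) → JG G P) : Prop where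
  fwd : ∀ j, z j = vlg ρ x (c j) ∧ vlg ρ x (c j) ≠ 0
  bwd : ∀ i : JG G P, vlg ρ x i ≠ 0 → ∃ j, c j = i

theorem exists_EG [Finite G] (ρ : G →* (K ≃+* K)) (x : Λ → K)
    (P : Finset Λ) (hP : P.Nonempty) (hx : ∀ a, x a ≠ 0) :
    ∃ (m : ℕ) (z : Fin (m + 1) → K) (c : Fin (m + 1) → JG G P), EG ρ x P z c := by
  obtain ⟨μ, hμ⟩ := hP
  have hne : Nonempty {i : JG G P // vlg ρ x i ≠ 0} := ⟨⟨Sum.inl ⟨μ, hμ⟩, hx μ⟩⟩
  obtain ⟨n, ⟨ε⟩⟩ := Finite.exists_equiv_fin {i : JG G P // vlg ρ x i ≠ 0}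
  have hn : n ≠ 0 := by
    rintro rfl
    exact Fin.elim0 (ε hne.some)
  obtain ⟨m, rfl⟩ := Nat.exists_eq_succ_of_ne_zero hn
  refine ⟨m, fun j => vlg ρ x (ε.symm j).1, fun j => (ε.symm j).1, ?_, ?_⟩
  · intro j
    exact ⟨rfl, (ε.symm j).2⟩
  · intro i hi
    refine ⟨ε ⟨i, hi⟩, ?_⟩
    simp only [Equiv.symm_apply_apply]

end data

section wild

variable {k O G : Type} [CommRing k] [CommRing O] [IsDomain O] [IsDedekindDomain O] [Algebra k O]
  [Group G] [Finite G] {T : G →* (O ≃ₐ[k] O)}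
  {Λ : Type} [AddCommGroup Λ] [DistribMulAction G Λ] {K : Type} [Field K] [Algebra O K]
  {ρ : G →* (K ≃+* K)} {x : Λ → K} {P : Finset Λ}

variable (T) in
/-- the data of a wild prime -/
structure WG (ρ : G →* (K ≃+* K)) (x : Λ → K) (I : Ideal O) (g : G)
    (p l : ℕ) : Prop where
  wd : Wd Λ O K x (ρ g) (T g).toRingEquiv (ta Λ g) p l I
  wi : IsWg T I g
  gp : g ^ p = 1
  lw : lw T I = l
  al : ∀ h : G, IsWg T I h ↔ ∃ e : ℕ, 1 ≤ e ∧ e < p ∧ h = g ^ e

variable {I : Ideal O} {g : G} {p l : ℕ}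

theorem rho_iter (e : ℕ) : (⇑(ρ g))^[e] = ⇑(ρ (g ^ e)) := by
  funext y
  induction e generalizing y with
  | zero => rw [pow_zero, map_one]; rfl
  | succ e ih =>
    rw [Function.iterate_succ_apply, ih, pow_succ, map_mul]
    rfl

/-- the weights at a wild prime -/
theorem cls (h : WG T ρ x I g p l) (i : JG G P) : wtg T I i = 0 ∨
    ∃ (e a : ℕ) (μ ν : Λ), 1 ≤ e ∧ e < p ∧ a < p ∧ μ ∈ P ∧ ν ∈ P ∧ Nm (ta Λ g) p (μ - ν) = 0 ∧
      wtg T I i = (a + 1) * l ∧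
      vlg ρ x i = (df ((⇑(ρ g))^[e]))^[a] (x μ - x ν) := by
  classical
  rcases i with μ | ⟨k, a, μ, ν⟩
  · exact Or.inl rfl
  · by_cases hc : IsWg T I k ∧ (a : ℕ) < orderOf k ∧ Nm (ta Λ k) (orderOf k) ((μ : Λ) - ν) = 0
    · right
      obtain ⟨h1, h2, h3⟩ := hc
      obtain ⟨e, he1, he2, rfl⟩ := (h.al k).1 h1
      have ho := ord_eq h.wd.pp h.gp he1 he2 h.wi.1
      have h4 : wtg T I (Sum.inr (g ^ e, a, μ, ν) : JG G P) = ((a : ℕ) + 1) * l := by
        change (if _ then _ else _) = _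
        rw [if_pos ⟨h1, h2, h3⟩, h.lw]
      rw [ho] at h2 h3
      refine ⟨e, a, μ, ν, he1, he2, h2, μ.2, ν.2, ?_, h4, ?_⟩
      · rw [← Nm_gen h.wd.pp h.gp he1 he2 h.wi.1]
        exact h3
      · rw [rho_iter]
        rfl
    · left
      change (if _ then _ else _) = _
      rw [if_neg hc]

theorem cls' (h : WG T ρ x I g p l) {e a : ℕ} {μ ν : Λ} (h1 : 1 ≤ e) (h2 : e < p) (h3 : a < p)
    (h4 : μ ∈ P) (h5 : ν ∈ P) (h6 : Nm (ta Λ g) p (μ - ν) = 0) :
    ∃ i : JG G P, wtg T I i = (a + 1) * l ∧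
      vlg ρ x i = (df ((⇑(ρ g))^[e]))^[a] (x μ - x ν) := by
  classical
  have ho := ord_eq h.wd.pp h.gp h1 h2 h.wi.1
  have hc : a < Nat.card G := by
    refine lt_of_lt_of_le h3 ?_
    rw [← ho]
    exact Nat.le_of_dvd Nat.card_pos (orderOf_dvd_natCard _)
  refine ⟨Sum.inr (g ^ e, ⟨a, hc⟩, ⟨μ, h4⟩, ⟨ν, h5⟩), ?_, ?_⟩
  · change (if _ then _ else _) = _
    rw [if_pos, h.lw]
    refine ⟨(h.al _).2 ⟨e, h1, h2, rfl⟩, ?_, ?_⟩
    · rw [ho]
      exact h3
    · rw [ho, Nm_gen h.wd.pp h.gp h1 h2 h.wi.1]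
      exact h6
  · rw [rho_iter]
    rfl

variable (hst : ∀ (g : G), ∀ μ ∈ P, g • μ ∈ P) (hact : ∀ g a, ρ g (x a) = x (g • a))

include hst hact in
theorem v_mem (h : WG T ρ x I g p l) (s : K) (i : JG G P) :
    hm (wtg T I i) (vlg ρ x i / s) ∈ WB x (ρ g) (ta Λ g) p l I P s := by
  rcases cls h i with h1 | ⟨e, a, μ, ν, h1, h2, h3, h4, h5, h6, h7, h8⟩
  · rw [h1]
    exact Pool.Agent.K3h66.TO.T.mem_sp (cl_span (val_cl hst hact i))
  · rw [h7, h8]
    exact WB_D h1 h2 h3 h4 h5 h6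

include hst hact in
theorem v_lin (h : WG T ρ x I g p l) (s : K) (i : JG G P) :
    hm ((wtg T I i : ℤ) + l) ((ρ g (vlg ρ x i) - vlg ρ x i) / s) ∈
      WB x (ρ g) (ta Λ g) p l I P s := by
  have hst' : ∀ a ∈ P, ta Λ g a ∈ P := fun a ha => hst g a ha
  rcases cls h i with h1 | ⟨e, a, μ, ν, h1, h2, h3, h4, h5, h6, h7, h8⟩
  · rw [h1]
    have h2 : ∀ y ∈ AddSubgroup.closure (x '' (P : Set Λ)), ρ g y - y ∈
        Vd s x (ρ g) (ta Λ g) p l I P l := by
      intro y hy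
      induction hy using AddSubgroup.closure_induction with
      | mem y hy =>
        obtain ⟨μ, hμ, rfl⟩ := hy
        exact h.wd.frm0 hst' s hμ
      | zero => rw [map_zero, sub_self]; exact AddSubgroup.zero_mem _
      | add y z _ _ hy hz => rw [map_add, add_sub_add_comm]; exact AddSubgroup.add_mem _ hy hz
      | neg y _ hy => rw [map_neg, ← neg_sub']; exact AddSubgroup.neg_mem _ hy
    have h3 := h2 _ (val_cl hst hact i)
    rw [mem_Vd] at h3
    convert h3 using 2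
    simp
  · have h9 := h.wd.frm1 hst' s h1 h2 h3 h4 h5 h6
    rw [mem_Vd] at h9
    rw [h7, h8]
    exact h9

variable {m : ℕ} {z : Fin (m + 1) → K} {c : Fin (m + 1) → JG G P}

include hst hact in
theorem BR_WB (h : WG T ρ x I g p l) (hE : EG ρ x P z c) (j : Fin (m + 1)) :
    BR I 1 (fun i => wtg T I (c i)) z j = (WB x (ρ g) (ta Λ g) p l I P (z j)).toSubring := by
  apply le_antisymm
  · intro f hf
    change f ∈ Algebra.adjoin O ({mo 1 (-1)} ∪
      {f | ∃ a ∈ I, f = mo (algebraMap O K a) (1 : ℕ)} ∪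
      Set.range fun i => mo (z i / z j) (wtg T I (c i))) at hf
    change f ∈ WB x (ρ g) (ta Λ g) p l I P (z j)
    induction hf using Algebra.adjoin_induction with
    | mem y hy =>
      rcases hy with (hy | ⟨a, ha, rfl⟩) | ⟨i, rfl⟩
      · rw [Set.mem_singleton_iff] at hy
        rw [hy, mo_eq]
        exact WB_T
      · rw [mo_eq]
        exact WB_e ha
      · change mo (z i / z j) (wtg T I (c i)) ∈ _
        rw [mo_eq]
        obtain ⟨hk1, -⟩ := hE.fwd i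
        rw [hk1]
        exact v_mem hst hact h (z j) (c i)
    | algebraMap r => exact Subalgebra.algebraMap_mem _ r
    | add x y _ _ hx hy => exact Subalgebra.add_mem _ hx hy
    | mul x y _ _ hx hy => exact Subalgebra.mul_mem _ hx hy
  · intro f hf
    change f ∈ WB x (ρ g) (ta Λ g) p l I P (z j) at hf
    change f ∈ Algebra.adjoin O ({mo 1 (-1)} ∪
      {f | ∃ a ∈ I, f = mo (algebraMap O K a) (1 : ℕ)} ∪
      Set.range fun i => mo (z i / z j) (wtg T I (c i)))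
    have hv : ∀ (i : JG G P) (d : ℤ), d = wtg T I i → hm d (vlg ρ x i / z j) ∈
        Algebra.adjoin O ({mo 1 (-1)} ∪
          {f | ∃ a ∈ I, f = mo (algebraMap O K a) (1 : ℕ)} ∪
          Set.range fun i => mo (z i / z j) (wtg T I (c i))) := by
      intro i d hd
      by_cases h0 : vlg ρ x i = 0
      · rw [h0, zero_div, hm_zero]
        exact Subalgebra.zero_mem _
      · obtain ⟨k, rfl⟩ := hE.bwd i h0
        rw [hd, ← (hE.fwd k).1, ← mo_eq]
        exact Algebra.subset_adjoin (Or.inr ⟨k, rfl⟩)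
    unfold WB at hf
    induction hf using Algebra.adjoin_induction with
    | mem y hy =>
      obtain (((rfl | ⟨e, he, rfl⟩) | ⟨μ, hμ, rfl⟩) |
        ⟨e, a, μ, ν, h1, h2, h3, h4, h5, h6, rfl⟩) := hy
      · rw [← mo_eq]
        exact Algebra.subset_adjoin (Or.inl (Or.inl rfl))
      · rw [← mo_eq]
        exact Algebra.subset_adjoin (Or.inl (Or.inr ⟨e, he, rfl⟩))
      · exact hv (Sum.inl ⟨μ, hμ⟩) 0 rfl
      · obtain ⟨i, hi1, hi2⟩ := cls' h h1 h2 h3 h4 h5 h6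
        rw [← hi2]
        exact hv i _ (by rw [hi1])
    | algebraMap r => exact Subalgebra.algebraMap_mem _ r
    | add x y _ _ hx hy => exact Subalgebra.add_mem _ hx hy
    | mul x y _ _ hx hy => exact Subalgebra.mul_mem _ hx hy

include hst hact in
/-- the minors of the family -/
theorem v_min (h : WG T ρ x I g p l) (s : K) (hs : s ≠ 0) (i k : JG G P) :
    hm ((wtg T I i : ℤ) + wtg T I k + l)
      ((vlg ρ x i * ρ g (vlg ρ x k) - vlg ρ x k * ρ g (vlg ρ x i)) / s ^ 2) ∈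
      WB x (ρ g) (ta Λ g) p l I P s := by
  have h1 := Subalgebra.sub_mem _
    (Subalgebra.mul_mem _ (v_mem hst hact h s i) (v_lin hst hact h s k))
    (Subalgebra.mul_mem _ (v_lin hst hact h s i) (v_mem hst hact h s k))
  rw [hm_mul, hm_mul] at h1
  have h2 : ((wtg T I i : ℕ) : ℤ) + l + (wtg T I k : ℕ) =
      (wtg T I i : ℕ) + ((wtg T I k : ℕ) + l) := by ring
  rw [h2, ← hm_sub] at h1
  convert h1 using 2
  · ring
  · field_simp
    ring

include hst hact in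
theorem nf_of (h : WG T ρ x I g p l) (hE : EG ρ x P z c) (hz : ∀ j, z j ≠ 0)
    (j : Fin (m + 1))
    (hC : ∀ (Q : Ideal (WB x (ρ g) (ta Λ g) p l I P (z j))) [Q.IsPrime],
      Zr2 x (ρ g) (T g).toRingEquiv (ta Λ g) p l I P (z j) Q →
      ∀ (k : ℕ) (y : K), 0 < k → hm k y ∈ WB x (ρ g) (ta Λ g) p l I P (z j) →
        MQ _ Q (hm k y)) :
    NF (BR I 1 (fun i => wtg T I (c i)) z j) I 1 l (fun i => wtg T I (c i)) z (ρ g) j := by
  rw [BR_WB hst hact h hE j]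
  intro y hy
  obtain ⟨n, hn, a, hya⟩ := hy
  rw [Ideal.radical_eq_sInf, Submodule.mem_sInf]
  rintro J ⟨hJ1, hJ2⟩
  have hJp : Ideal.IsPrime (α := WB x (ρ g) (ta Λ g) p l I P (z j)) J := hJ2
  have hmin : ∀ (i k : JG G P) (d : ℤ) (y : K), d = (wtg T I i : ℤ) + wtg T I k + l →
      y = vlg ρ x i * ρ g (vlg ρ x k) - vlg ρ x k * ρ g (vlg ρ x i) →
      MQ (WB x (ρ g) (ta Λ g) p l I P (z j)) J (hm d (y / z j ^ 2)) := by
    intro i k d y hd hy
    have h1 := v_min hst hact h (z j) (hz j) i k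
    rw [← hd, ← hy] at h1
    refine ⟨h1, ?_⟩
    have h0 : hm d (y / z j ^ 2) = 0 → (⟨_, h1⟩ : (WB x (ρ g) (ta Λ g) p l I P
        (z j)).toSubring) ∈ J := by
      intro h2
      have h3 : (⟨_, h1⟩ : (WB x (ρ g) (ta Λ g) p l I P (z j)).toSubring) = 0 :=
        Subtype.ext h2
      rw [h3]
      exact J.zero_mem
    by_cases hi : vlg ρ x i = 0
    · exact h0 (by rw [hy, hi, map_zero, mul_zero, zero_mul, sub_zero, zero_div, hm_zero])
    by_cases hk : vlg ρ x k = 0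
    · exact h0 (by rw [hy, hk, map_zero, mul_zero, zero_mul, sub_zero, zero_div, hm_zero])
    obtain ⟨i', rfl⟩ := hE.bwd i hi
    obtain ⟨k', rfl⟩ := hE.bwd k hk
    refine hJ1 (Ideal.subset_span (Or.inr (Or.inr ⟨i', k', ?_⟩)))
    rw [(hE.fwd i').1, (hE.fwd k').1, mo_eq, ← hy, ← hd]
  have hZ : Zr2 x (ρ g) (T g).toRingEquiv (ta Λ g) p l I P (z j) J := by
    refine ⟨?_, ?_, ?_, ?_⟩
    · intro e he
      refine ⟨Subalgebra.algebraMap_mem _ e, hJ1 (Ideal.subset_span (Or.inl ⟨e, he, ?_⟩))⟩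
      rw [mo_eq]
    · intro e he
      have h1 := WB_pow (x := x) (σ := ρ g) (τ := ta Λ g) (p := p) (l := l) (P := P)
        (s := z j) (h.wd.dv e)
      have h2 : (((l + 1 : ℕ)) : ℤ) = 1 + l := by push_cast; ring
      rw [h2] at h1
      refine ⟨h1, hJ1 (Ideal.subset_span (Or.inr (Or.inl ⟨e, he, ?_⟩)))⟩
      rw [mo_eq]
      have h3 := h.wd.com e
      change ρ g (algebraMap O K e) = algebraMap O K (T g e) at h3
      rw [h3, ← map_sub]
      rfl
    · intro μ hμ ν hν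
      exact hmin (Sum.inl ⟨ν, hν⟩) (Sum.inl ⟨μ, hμ⟩) _ _ (by
        change (l : ℤ) = ((0 : ℕ) : ℤ) + ((0 : ℕ) : ℤ) + l
        simp) rfl
    · intro e a μ ν κ h1 h2 h3 h4 h5 h6 h7
      obtain ⟨i, hi1, hi2⟩ := cls' h h1 h2 h3 h4 h5 h7
      refine hmin (Sum.inl ⟨κ, h6⟩) i _ _ ?_ ?_
      · rw [hi1]
        change _ = ((0 : ℕ) : ℤ) + _ + l
        simp
      · rw [hi2]
        rfl
  have hmem : hm n a ∈ WB x (ρ g) (ta Λ g) p l I P (z j) := by
    rw [← mo_eq, ← hya]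
    exact y.2
  obtain ⟨h1, h2⟩ := hC J hZ n a hn hmem
  have h3 : y = ⟨hm n a, h1⟩ := Subtype.ext (by rw [hya, mo_eq])
  rw [h3]
  exact h2

end wild

end Pool.Agent.K3h66.FF
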