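import Pool.Agent.K3h66.FF.Fmf
import Pool.Agent.K3h75.FF.Stm2

/-!
# Brick FMLF
-/

set_option autoImplicit false
set_option linter.unusedSectionVars false

namespace Pool.Agent.K3h66.FF

open Pool.Agent.Y223.G Pool.Agent.W418.LU2 Pool.Agent.R383.TM Module
open Pool.Agent.K3h75.TO Pool.Agent.K3h66.TO.F Pool.Agent.K3h22.PK Pool.Agent.K3h75.TV

/-- Linear independence over the field of fractions. -/
theorem ind_frac {Λ M O K : Type} [Field M] [CommRing O] [IsDomain O] [Field K] [Algebra M K]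
    [Algebra O K] {x : Λ → K} (hx : LinearIndependent O x)
    (hlf : ∀ x : M, ∃ a b : O, b ≠ 0 ∧ algebraMap M K x * algebraMap O K b = algebraMap O K a)
    (hinj : Function.Injective (algebraMap O K)) :
    LinearIndependent M x := by
  classical
  choose a b hb hab using hlf
  rw [linearIndependent_iff'] at hx ⊢
  intro s g hg i hi
  have h1 : ∑ i ∈ s, (a (g i) * ∏ j ∈ s.erase i, b (g j)) • x i = 0 := by
    have h2 : ∀ i ∈ s, (a (g i) * ∏ j ∈ s.erase i, b (g j)) • x i =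
        (algebraMap O K (∏ j ∈ s, b (g j))) * (g i • x i) := by
      intro i hi
      rw [Algebra.smul_def, Algebra.smul_def, map_mul, ← hab, ← Finset.mul_prod_erase s _ hi,
        map_mul]
      ring
    rw [Finset.sum_congr rfl h2, ← Finset.mul_sum, hg, mul_zero]
  have h2 := hx s _ h1 i hi
  have h3 : a (g i) = 0 := by
    rcases mul_eq_zero.1 h2 with h | h
    · exact h
    · exact absurd h (Finset.prod_ne_zero_iff.2 fun j _ => hb _)
  have h4 := hab (g i)
  rw [h3, map_zero, mul_eq_zero] at h4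
  rcases h4 with h | h
  · exact (map_eq_zero_iff _ (algebraMap M K).injective).1 h
  · exact absurd (hinj (by rw [h, map_zero])) (hb (g i))

theorem t_FMLF : Pool.Agent.K3h75.FF.S_FMLF := by
  intro hNUM hPK hVREG hVNZ hCHT hCH0 k O M K G _ _ _ _ _ _ _ _ _ _ _ _ _ _ ρ T hG hlo hlf
    Λ _ _ P hP hst x hx0 hxa hxi hgen hact
  let ρ₀ : G →* (K ≃+* K) :=
    { toFun := fun g => (ρ g).toRingEquiv
      map_one' := by rw [map_one]; rfl
      map_mul' := fun g h => by rw [map_mul]; rfl }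
  have hxM : LinearIndependent M x := ind_frac hxi hlf hG.inj
  obtain ⟨n, m, z, hn, hz, hzs, hxz, hgenz, hcj, hO⟩ := t_FMF hPK hVREG hVNZ hCHT hCH0 G Λ M K P hP
    hst ρ₀ x hx0 hxa hxM hgen hact
  obtain ⟨hreg, w, hW⟩ := hO k O hG.inj hlo ρ T (fun _ _ => rfl) (fun g o => hG.com g o) (by
    intro 𝔓 g h𝔓 hg
    obtain ⟨p, l, h1, h2, h3, h4, h5, h6, h7, h8⟩ := hNUM k O K G ρ T hG 𝔓 h𝔓 g hg.1 hg.2
    exact ⟨p, l, h1, h2, h3, h4, h5, h6, h7, h8⟩)
  refine ⟨n, m, z, hn, hz, fun j => cl_span (hzs j), hxz, hgenz, ?_, hreg, fun _ => 1, w, hW⟩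
  intro g j
  obtain ⟨j', hj'⟩ := hcj g j
  have h1 : ρ g (z j) = z j' := hj'.symm
  rw [h1]
  exact Submodule.subset_span ⟨j', rfl⟩

end Pool.Agent.K3h66.FF
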