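import Pool.Agent.K3h66.FF.FmlF
import Pool.Agent.K3h75.FF.Stm3

/-!
# Brick FMLU: the family of the coordinates, uniformly in the Dedekind domain
-/

set_option autoImplicit false
set_option linter.unusedSectionVars false

namespace Pool.Agent.K3h66.FF

open Pool.Agent.Y223.G Pool.Agent.W418.LU2 Pool.Agent.R383.TM Module
open Pool.Agent.K3h75.TO Pool.Agent.K3h66.TO.F Pool.Agent.K3h22.PK Pool.Agent.K3h75.TV

theorem cl_int {Λ K : Type} [Field K] {x : Λ → K} {P : Finset Λ} {y : K}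
    (hy : y ∈ AddSubgroup.closure (x '' (P : Set Λ))) :
    y ∈ Submodule.span ℤ (x '' (P : Set Λ)) := by
  rw [← Submodule.mem_toAddSubgroup, Submodule.span_int_eq_addSubgroupClosure]
  exact hy

theorem t_FMLU : Pool.Agent.K3h75.FF.S_FMLU := by
  intro hNUM hPK hVREG hVNZ hCHT hCH0 K G Λ _ _ _ _ _ ρ P₀ hSm hst₀ x hx0 hxa hact
  obtain ⟨k₀, hk₀, hst, hvx⟩ := hPK Λ G P₀ hSm hst₀
  obtain ⟨v₀, hv₀⟩ := hSm.ne
  have hPne : (Pk P₀ k₀).Nonempty := ⟨k₀ • v₀, smul_mem_Pk P₀ k₀ hv₀⟩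
  clear hv₀ v₀
  obtain ⟨P, hP⟩ : ∃ P, P = Pk P₀ k₀ := ⟨_, rfl⟩
  rw [← hP] at hst hvx hPne
  have hne : ∀ a, x a ≠ 0 := by
    intro a h1
    have h2 := hxa a (-a)
    rw [add_neg_cancel, h1, zero_mul, hx0] at h2
    exact one_ne_zero h2
  obtain ⟨m, z, c, hE⟩ := exists_EG ρ x P hPne hne
  have hz : ∀ j, z j ≠ 0 := by
    intro j
    rw [(hE.fwd j).1]
    exact (hE.fwd j).2
  have hzs : ∀ j, z j ∈ AddSubgroup.closure (x '' (P : Set Λ)) := by
    intro j
    rw [(hE.fwd j).1]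
    exact val_cl hst hact _
  have hxz : ∀ μ ∈ P, ∃ j, z j = x μ := by
    intro μ hμ
    obtain ⟨j, hj⟩ := hE.bwd (Sum.inl ⟨μ, hμ⟩) (hne μ)
    refine ⟨j, ?_⟩
    rw [(hE.fwd j).1, hj]
    rfl
  have hcj : ∀ (g : G) j, ∃ (k : Fin (m + 1)), z k = ρ g (z j) ∧ c k = cjg hst g (c j) := by
    intro g j
    have h4 : vlg ρ x (cjg hst g (c j)) ≠ 0 := by
      rw [val_cj hst hact]
      intro h5
      exact (hE.fwd j).2 ((map_eq_zero_iff _ (ρ g).injective).1 h5)
    obtain ⟨k, hk⟩ := hE.bwd _ h4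
    exact ⟨k, by rw [(hE.fwd k).1, hk, val_cj hst hact, (hE.fwd j).1], hk⟩
  refine ⟨k₀, m, z, hk₀, hz, by rw [← hP]; exact fun j => cl_int (hzs j),
    by rw [← hP]; exact hxz, ?_, ?_⟩
  · intro g j
    obtain ⟨k, hk, -⟩ := hcj g j
    exact ⟨k, hk.symm⟩
  intro k O M _ _ _ _ _ _ _ _ _ _ _ ρ' T hρ' hG hlo hlf hxi hgen
  have hcom : ∀ g o, ρ g (algebraMap O K o) = algebraMap O K (T g o) := by
    intro g o
    rw [← hρ']
    exact hG.com g o
  have hch : Chr Λ O K x := ⟨hx0, hxa, hxi⟩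
  have hzsO : ∀ j, z j ∈ Submodule.span O (x '' (P : Set Λ)) := fun j => cl_span (hzs j)
  have hWN : ∀ (I : Ideal O) (g : G), I.IsMaximal → IsWg T I g →
      ∃ p l : ℕ, WG T ρ x I g p l := by
    intro I g hI hg
    obtain ⟨p, l, hp, hl, hI0, hgp, hpl, hdv, hun, hal⟩ := hNUM k O K G ρ' T hG I hI g hg.1 hg.2
    refine ⟨p, l, ?_, hg, hgp, lw_eq hg hp hgp hdv hun hal, hal⟩
    exact
      { toChr := hch
        pp := hp
        mx := hI
        ne := hI0
        com := fun o => hcom g o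
        act := fun a => hact g a
        ord := by
          intro y
          rw [rho_iter, hgp, map_one]
          rfl
        l1 := hl
        dv := hdv
        un := hun
        pl := hpl }
  have hC : ∀ (I : Ideal O) (g : G) (p l : ℕ), WG T ρ x I g p l → ∀ j,
      IsRegularRing (WB x (ρ g) (ta Λ g) p l I P (z j)) ∧
      ∀ (Q : Ideal (WB x (ρ g) (ta Λ g) p l I P (z j))) [Q.IsPrime],
      Zr2 x (ρ g) (T g).toRingEquiv (ta Λ g) p l I P (z j) Q →
      ∀ (k : ℕ) (y : K), 0 < k → hm k y ∈ WB x (ρ g) (ta Λ g) p l I P (z j) →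
        MQ _ Q (hm k y) := by
    intro I g p l h j
    have hst' : ∀ a ∈ P, ta Λ g a ∈ P := fun a ha => hst g a ha
    refine hCHT Λ O K x (ρ g) (T g).toRingEquiv (ta Λ g) p l I h.wd P hst'
      ?_ (z j) (hz j) (hzsO j)
    intro μ hμ
    obtain ⟨v, hv, hms, n, b, hb, hnn, hLg⟩ := hvx μ hμ
    have hVx : Vx b (ta Λ g) p P v := by
      refine ⟨hv, hst', hb, hnn, ?_⟩
      refine hLg g p h.wd.pp ?_
      intro a
      have h1 := ta_iter g p a
      rw [h.gp, one_smul] at h1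
      exact h1
    exact ⟨v, hv, hms,
      hVREG Λ O K x (ρ g) (T g).toRingEquiv (ta Λ g) p l I h.wd n b P v hVx,
      hVNZ Λ O K x (ρ g) (T g).toRingEquiv (ta Λ g) p l I h.wd n b P v hVx⟩
  refine ⟨?_, ?_, fun _ => 1, fun I j => wtg T I (c j), ?_⟩
  · obtain ⟨μ, hμ⟩ := hPne
    obtain ⟨v, hv, -, n, b, hb, -, -⟩ := hvx μ hμ
    exact gen_top hx0 hxa hgen hz hxz hv b hb
  · intro j
    rw [adj_eq hzsO hxz]
    refine hCH0 Λ O K x hch P ?_ (z j) (hz j) (hzsO j)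
    intro μ hμ
    obtain ⟨v, hv, hms, n, b, hb, hnn, -⟩ := hvx μ hμ
    exact ⟨v, hv, hms, n, b, hb, hnn⟩
  · refine ⟨fun _ => one_pos, ?_, ?_, ?_⟩
    · rintro I hI ⟨g, hg, hw⟩ j
      obtain ⟨p, l, h⟩ := hWN I g hI ⟨hg, hw⟩
      refine WR_reg ?_
      rw [BR_WB hst hact h hE j]
      exact (hC I g p l h j).1
    · rintro I hI ⟨g, hg, hw⟩ h J hh
      refine ⟨rfl, fun i j => WR_mem ?_⟩
      obtain ⟨k', hk, h1⟩ := hcj h i
      have h3 : wtg T I (c i) = wtg T J (c k') := by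
        rw [h1, wt_cj hst hh]
      rw [h3, hρ', ← hk]
      exact Algebra.subset_adjoin (Or.inr ⟨k', rfl⟩)
    · intro I hI g hg hw
      obtain ⟨p, l, h⟩ := hWN I g hI ⟨hg, hw⟩
      refine ⟨l, l, h.wd.l1, by rw [one_mul], h.wd.dv, ?_, ?_⟩
      · intro i j
        refine WR_mem ?_
        rw [BR_WB hst hact h hE j, mo_eq, hρ', (hE.fwd i).1]
        exact v_lin hst hact h (z j) (c i)
      · intro j
        have h4 : (fun y : K => ρ' g y) = ρ g := by
          funext y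
          exact hρ' g y
        have h5 := nf_of hst hact h hE hz j (hC I g p l h j).2
        refine FIX_of (k := k) (ρ' g) (T g) ?_ ?_
        · intro o
          exact hG.com g o
        · change NF _ I 1 l _ z (fun y : K => ρ' g y) j
          rw [h4]
          exact h5

end Pool.Agent.K3h66.FF
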